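import Mathlib
import Pool.Agent.TH588.Proper
import Pool.Agent.TH588.Osc

set_option autoImplicit false

/-!
# A cocompact CAT(0) cube complex with different piecewise `ℓ^p` compactifications

All definitions used in the statement are in `Pool.Agent.TH588.Defs`.

The example is `X = Y × ℝ`, where `Y` is the universal cover of a wedge of two squares, in the
first of which two opposite corners are identified, in the second two adjacent corners; thus `Y` is
a tree of squares. The group `F_2 × ℤ` acts on `X`. Along a path in `Y` which crosses first many
squares of the first kind (diagonally), then many more squares of the second kind (along an edge),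
then many more squares of the first kind, and so on, the ratio of the distances `d_p` and `d_r` from
the base point oscillates. If `y_n` are the vertices of this path, then the points
`(y_n, d_p(o, y_n))` of `X` converge in the compactification with respect to `d_p`, but not in the
compactification with respect to `d_r`.
-/

namespace Pool.Agent.Results.MP_67b01c_gt.CocompactExample

open Pool.Agent.TH588

/-- There are a nonempty CAT(0) cube complex `X`, all of whose maximal cubes are of dimension three, and a
group acting on `X` by automorphisms with compact quotient (moreover freely and properly), such that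
for all real numbers `p ≠ r` greater than `1` and every base point `o` the identity of `X` does not
extend to a continuous map (let alone to a homeomorphism) from the compactification of `X` with
respect to the piecewise `ℓ^p` metric to the one with respect to the piecewise `ℓ^r` metric.
For all `p > 1`, the piecewise `ℓ^p` metric of `X` is uniquely geodesic. -/
theorem result : ∃ (X : Type) (K : CubeComplex X) (G : Type) (_ : Group G) (_ : MulAction G X),
    Nonempty X ∧
    (∀ i, K.dim i = 3) ∧
    K.CAT0 ∧
    K.ActsByAutomorphisms G ∧
    @CompactSpace (MulAction.orbitRel.Quotient G X)
      (@instTopologicalSpaceQuotient X (MulAction.orbitRel G X) (ballTopology (K.dist 2))) ∧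
    (∀ (g : G) (x : X), g • x = x → g = 1) ∧
    (∀ (x : X) (R : ℝ), {g : G | K.dist 2 x (g • x) ≤ R}.Finite) ∧
    (∀ p : ℝ, 1 < p → IsMetric (K.dist p) ∧ UniquelyGeodesic (K.dist p)) ∧
    ∀ p r : ℝ, 1 < p → 1 < r → p ≠ r → ∀ o : X,
      ¬ ∃ F : Compactification (K.dist p) o → Compactification (K.dist r) o, Continuous F ∧
        ∀ x, F (Compactification.point x) = Compactification.point x := by
  have h2 : (1 : ℝ) ≤ 2 := by norm_num
  refine ⟨XX, KX, GX, inferInstance, actX, ⟨⟨(vtx 1, 0), vtx_inY _⟩⟩, fun _ => rfl, ?_, acts, ?_,
    free, ?_, ?_, ?_⟩
  · rw [CubeComplex.CAT0, KX_dist h2]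
    exact DX_cat0
  · rw [KX_dist h2]
    exact compact_quotient h2
  · rw [KX_dist h2]
    exact proper h2
  · intro p hp
    rw [KX_dist hp.le]
    exact ⟨DX_isMetric hp.le, DX_uniquelyGeodesic hp⟩
  · intro p r hp hr hpr
    rw [KX_dist hp.le, KX_dist hr.le]
    exact no_extension hp hr hpr

end Pool.Agent.Results.MP_67b01c_gt.CocompactExample
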